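import Pool.Agent.H.MP_0cad2f_co.helper77.Sum
import Pool.Agent.H.MP_0cad2f_co.helper96.Meas2
import Pool.Agent.H.MP_0cad2f_co.helper47.Flux
import Pool.Agent.H.MP_0cad2f_co.helper11.Gauss
import Pool.Agent.H.MP_0cad2f_co.helper11.One
import Pool.Agent.H.MP_0cad2f_co.helper11.Fresh

/-!
The expected flux.
-/

set_option autoImplicit false

namespace Pool.Agent.H.MP_0cad2f_co.h13

open MeasureTheory ProbabilityTheory Matrix Finset
open Pool.Agent.H.MP_0cad2f_co Pool.Agent.H.MP_0cad2f_co.helper47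
open Pool.Agent.H.MP_0cad2f_co.helper96
open Pool.Agent.H.MP_0cad2f_co.helper11.TD (fresh_bound)
open Pool.Agent.H.MP_0cad2f_co.helper77 (sum_coneVol_le)
open scoped NNReal ENNReal

variable {n d : ℕ}

theorem cubeVol_mono {R R' : ℝ} (h : R ≤ R') : cubeVol d R ≤ cubeVol d R' :=
  measure_mono fun _ hx => le_trans hx h

/-- The pointwise bound for the dual vectors. -/
theorem expect_dual {a : Fin n → Fin d → ℝ} {I B : Idx n d} (hI : (mat a I).det ≠ 0)
    (hB : (mat a B).det ≠ 0) {A T : ℝ} (hA0 : 0 ≤ A) (hT0 : 0 ≤ T)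
    (hT : ∀ k, n2 (nu a I k) ≤ T) (ha : ∀ i, n2 (a i) ≤ A) :
    ∑ k, n2 (nu a B k) ≤ d * T + (1 + d * A * T) * ∑ m with B m ∉ Set.range I, n2 (nu a B m) := by
  classical
  set F := ∑ m with B m ∉ Set.range I, n2 (nu a B m) with hF
  have hF0 : 0 ≤ F := Finset.sum_nonneg fun m _ => n2_nonneg _
  rw [← Finset.sum_filter_add_sum_filter_not Finset.univ (fun m => B m ∈ Set.range I)]
  have h1 : ∑ m with B m ∈ Set.range I, n2 (nu a B m) ≤ d * (T + A * T * F) := by
    calc ∑ m with B m ∈ Set.range I, n2 (nu a B m)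
        ≤ ∑ _m : Fin d with B _m ∈ Set.range I, (T + A * T * F) := by
          refine Finset.sum_le_sum fun m hm => ?_
          exact nu_old hI hB hT ha m (Finset.mem_filter.1 hm).2
      _ ≤ ∑ _m : Fin d, (T + A * T * F) :=
          Finset.sum_le_sum_of_subset_of_nonneg (Finset.filter_subset _ _)
            fun _ _ _ => by positivity
      _ = d * (T + A * T * F) := by
          rw [Finset.sum_const, Finset.card_univ, Fintype.card_fin, nsmul_eq_mul]
  calc _ ≤ d * (T + A * T * F) + F := add_le_add h1 le_rfl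
    _ = _ := by ring

theorem expect_cI {a : Fin n → Fin d → ℝ} {I : Idx n d} {A : ℝ} (ha : ∀ i, n2 (a i) ≤ A) :
    n2 (cI a I) ≤ d * A := by
  calc n2 (cI a I) ≤ ∑ k : Fin d, n2 (a (I k)) := n2_sum_le _ _
    _ ≤ ∑ _k : Fin d, A := Finset.sum_le_sum fun k _ => ha _
    _ = d * A := by simp

open Classical in
/-- First part of the pointwise bound. -/
noncomputable def exT1 (a : Fin n → Fin d → ℝ) (G : Finset (Fin n)) (I : Idx n d)
    (L M R : ℝ) : ℝ≥0∞ :=
  ∑ B : Idx n d, if Good a B then ∫⁻ μ in Set.Icc 0 M, coneVol a B (obj a G I L μ) R else 0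

open Classical in
/-- Second part of the pointwise bound. -/
noncomputable def exT2 (a : Fin n → Fin d → ℝ) (G : Finset (Fin n)) (I : Idx n d)
    (L M R : ℝ) : ℝ≥0∞ :=
  ∑ B : Idx n d, ∑ k with B k ∉ Set.range I, if Good a B then
    ENNReal.ofReal (n2 (nu a B k)) * ∫⁻ μ in Set.Icc 0 M, coneVol a B (obj a G I L μ) R else 0

theorem expect_point {a : Fin n → Fin d → ℝ} (G : Finset (Fin n)) {I : Idx n d} {A T L M R : ℝ}
    (hI : (mat a I).det ≠ 0) (hA0 : 0 ≤ A) (hT0 : 0 ≤ T)
    (hT : ∀ k, n2 (nu a I k) ≤ T) (ha : ∀ i, n2 (a i) ≤ A) :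
    fluxSum a G I A L M R ≤ ENNReal.ofReal (d * A ^ 2) *
      (ENNReal.ofReal (d * T) * exT1 a G I L M (R + 1) +
        ENNReal.ofReal (1 + d * A * T) * exT2 a G I L M (R + 1)) := by
  classical
  unfold fluxSum exT1 exT2
  rw [Finset.mul_sum, Finset.mul_sum, ← Finset.sum_add_distrib, Finset.mul_sum]
  refine Finset.sum_le_sum fun B _ => ?_
  by_cases hB : Good a B
  · simp only [if_pos hB]
    have h1 : ∀ k, A * |nu a B k ⬝ᵥ cI a I| ≤ d * A ^ 2 * n2 (nu a B k) := by
      intro k
      have h2 : |nu a B k ⬝ᵥ cI a I| ≤ n2 (nu a B k) * (d * A) :=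
        (abs_dot_le _ _).trans (mul_le_mul_of_nonneg_left (expect_cI ha) (n2_nonneg _))
      calc A * |nu a B k ⬝ᵥ cI a I| ≤ A * (n2 (nu a B k) * (d * A)) :=
            mul_le_mul_of_nonneg_left h2 hA0
        _ = _ := by ring
    have h3 := expect_dual hI hB.1 hA0 hT0 hT ha
    have hF0 : 0 ≤ ∑ m with B m ∉ Set.range I, n2 (nu a B m) :=
      Finset.sum_nonneg fun m _ => n2_nonneg _
    have h4 : ∑ k, ENNReal.ofReal (A * |nu a B k ⬝ᵥ cI a I|) ≤ ENNReal.ofReal (d * A ^ 2) *
        (ENNReal.ofReal (d * T) + ENNReal.ofReal (1 + d * A * T) *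
          ∑ m with B m ∉ Set.range I, ENNReal.ofReal (n2 (nu a B m))) := by
      calc ∑ k, ENNReal.ofReal (A * |nu a B k ⬝ᵥ cI a I|)
          = ENNReal.ofReal (∑ k, A * |nu a B k ⬝ᵥ cI a I|) :=
            (ENNReal.ofReal_sum_of_nonneg fun k _ => by positivity).symm
        _ ≤ ENNReal.ofReal (d * A ^ 2 * (d * T + (1 + d * A * T) *
              ∑ m with B m ∉ Set.range I, n2 (nu a B m))) := by
            refine ENNReal.ofReal_le_ofReal ?_
            calc ∑ k, A * |nu a B k ⬝ᵥ cI a I| ≤ ∑ k, d * A ^ 2 * n2 (nu a B k) :=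
                  Finset.sum_le_sum fun k _ => h1 k
              _ = d * A ^ 2 * ∑ k, n2 (nu a B k) := by rw [Finset.mul_sum]
              _ ≤ _ := mul_le_mul_of_nonneg_left h3 (by positivity)
        _ = _ := by
            rw [ENNReal.ofReal_mul (by positivity), ENNReal.ofReal_add (by positivity)
              (by positivity), ENNReal.ofReal_mul (p := 1 + d * A * T) (by positivity),
              ENNReal.ofReal_sum_of_nonneg fun m _ => n2_nonneg _]
    calc (∑ k, ENNReal.ofReal (A * |nu a B k ⬝ᵥ cI a I|)) *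
          ∫⁻ μ in Set.Icc 0 M, coneVol a B (obj a G I L μ) (R + 1)
        ≤ (ENNReal.ofReal (d * A ^ 2) *
          (ENNReal.ofReal (d * T) + ENNReal.ofReal (1 + d * A * T) *
          ∑ m with B m ∉ Set.range I, ENNReal.ofReal (n2 (nu a B m)))) *
          ∫⁻ μ in Set.Icc 0 M, coneVol a B (obj a G I L μ) (R + 1) := by gcongr
      _ = _ := by
          rw [← Finset.sum_mul]
          ring
  · simp only [if_neg hB]
    simp

theorem measurable_coneVol_mu (a : Fin n → Fin d → ℝ) (G : Finset (Fin n)) (I B : Idx n d)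
    (L R : ℝ) : Measurable fun μ : ℝ => coneVol a B (obj a G I L μ) R :=
  Measurable.comp (g := fun q : (Fin n → Fin d → ℝ) × ℝ => coneVol q.1 B (obj q.1 G I L q.2) R)
    (f := fun μ : ℝ => (a, μ)) (measurable_coneVol G I B L R) measurable_prodMk_left

theorem measurable_coneVol_a (G : Finset (Fin n)) (I B : Idx n d)
    (L R μ : ℝ) : Measurable fun a : Fin n → Fin d → ℝ => coneVol a B (obj a G I L μ) R :=
  Measurable.comp (g := fun q : (Fin n → Fin d → ℝ) × ℝ => coneVol q.1 B (obj q.1 G I L q.2) R)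
    (f := fun a : Fin n → Fin d → ℝ => (a, μ)) (measurable_coneVol G I B L R)
    measurable_prodMk_right

theorem measurable_int_coneVol (G : Finset (Fin n)) (I B : Idx n d) (L M R : ℝ) :
    Measurable fun a : Fin n → Fin d → ℝ =>
      ∫⁻ μ in Set.Icc 0 M, coneVol a B (obj a G I L μ) R :=
  (measurable_coneVol G I B L R).lintegral_prod_right'

theorem exT1_le (hd : 1 ≤ d) {a : Fin n → Fin d → ℝ} (hs : Simple a) (G : Finset (Fin n))
    (I : Idx n d) (L M R : ℝ) :
    exT1 a G I L M R ≤ ENNReal.ofReal M * cubeVol d R := by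
  classical
  have h1 : exT1 a G I L M R = ∫⁻ μ in Set.Icc 0 M,
      ∑ B : Idx n d, (if Good a B then coneVol a B (obj a G I L μ) R else 0) := by
    unfold exT1
    rw [lintegral_finsetSum]
    · refine Finset.sum_congr rfl fun B _ => ?_
      by_cases hB : Good a B
      · simp only [if_pos hB]
      · simp only [if_neg hB, lintegral_const, zero_mul]
    · intro B _
      by_cases hB : Good a B
      · simp only [if_pos hB]
        exact measurable_coneVol_mu a G I B L R
      · simp only [if_neg hB]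
        exact measurable_const
  rw [h1]
  calc ∫⁻ μ in Set.Icc 0 M,
        ∑ B : Idx n d, (if Good a B then coneVol a B (obj a G I L μ) R else 0)
      ≤ ∫⁻ _μ in Set.Icc 0 M, cubeVol d R :=
        lintegral_mono fun μ => sum_coneVol_le hd hs _ _
    _ = ENNReal.ofReal M * cubeVol d R := by
        rw [setLIntegral_const, Real.volume_Icc, sub_zero, mul_comm]

theorem exT1_int (c : Fin n → Fin d → ℝ) (G : Finset (Fin n)) (I : Idx n d) (hd : 1 ≤ d)
    {σ : ℝ} (hσ : 0 < σ) (L M R : ℝ) (S : Set (Fin n → Fin d → ℝ)) :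
    ∫⁻ a in S, exT1 a G I L M R ∂(noise c σ) ≤
      ENNReal.ofReal M * cubeVol d R * noise c σ S := by
  have h1 : ∀ᵐ a ∂((noise c σ).restrict S), exT1 a G I L M R ≤ ENNReal.ofReal M * cubeVol d R := by
    filter_upwards [ae_restrict_of_ae (helper11.TD.ae_simple c hσ)] with a ha
    exact exT1_le hd ha G I L M R
  calc ∫⁻ a in S, exT1 a G I L M R ∂(noise c σ)
      ≤ ∫⁻ _a in S, ENNReal.ofReal M * cubeVol d R ∂(noise c σ) := lintegral_mono_ae h1
    _ = _ := by rw [setLIntegral_const]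

theorem expect_one (c : Fin n → Fin d → ℝ) (G : Finset (Fin n)) (I B : Idx n d) (k₀ : Fin d)
    (hf : B k₀ ∉ Set.range I) {σ A Rg ρ₁ T L R M ρ s₀ : ℝ} (hd : 2 ≤ d) (hσ : 0 < σ)
    (hσ1 : σ ≤ 1) (hRg : 0 ≤ Rg) (hA : ∀ i, n2 (c i) + Rg ≤ A) (hT : 0 < T) (hR : 0 ≤ R)
    (hL : T * (d * (R + 1) + 1) ≤ L)
    (hρ : 2 * L * G.card + (d * (R + 1) + L * G.card * A) * ρ₁ ≤ ρ) (hs : 0 < s₀)
    (h1 : 2 * s₀ * (1 + A * ρ) * (Rg + 1) ≤ σ ^ 2) (h2 : 2 * s₀ * (1 + A * ρ) * L ≤ 1)
    (h3 : 2 * s₀ * (1 + A * ρ) * ((d * (R + 1) + L * G.card * A + M * d * A) * ρ) ≤ 1) :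
    ∫⁻ a in {a | Reg c a G I Rg ρ₁ T ∧ Good a B}, ENNReal.ofReal (n2 (nu a B k₀)) *
        (∫⁻ μ in Set.Icc 0 M, coneVol a B (obj a G I L μ) (R + 1)) ∂(noise c σ) ≤
      ENNReal.ofReal (4 / s₀) * ∫⁻ μ in Set.Icc 0 M,
        ∫⁻ a in {a | Good a I ∧ Good a B}, coneVol a B (obj a G I L μ) (R + 3) ∂(noise c σ) := by
  have hn : Measurable fun a : Fin n → Fin d → ℝ => ENNReal.ofReal (n2 (nu a B k₀)) :=
    (helper11.TD.measurable_n2.comp (helper11.TD.measurable_nu B k₀)).ennreal_ofReal
  calc ∫⁻ a in {a | Reg c a G I Rg ρ₁ T ∧ Good a B}, ENNReal.ofReal (n2 (nu a B k₀)) *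
        (∫⁻ μ in Set.Icc 0 M, coneVol a B (obj a G I L μ) (R + 1)) ∂(noise c σ)
      = ∫⁻ a in {a | Reg c a G I Rg ρ₁ T ∧ Good a B}, (∫⁻ μ in Set.Icc 0 M,
          ENNReal.ofReal (n2 (nu a B k₀)) * coneVol a B (obj a G I L μ) (R + 1))
            ∂(noise c σ) := by
        refine lintegral_congr fun a => ?_
        rw [lintegral_const_mul _ (measurable_coneVol_mu a G I B L (R + 1))]
    _ = ∫⁻ μ in Set.Icc 0 M, ∫⁻ a in {a | Reg c a G I Rg ρ₁ T ∧ Good a B},
          ENNReal.ofReal (n2 (nu a B k₀)) * coneVol a B (obj a G I L μ) (R + 1)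
            ∂(noise c σ) := by
        refine lintegral_lintegral_swap (Measurable.aemeasurable ?_)
        exact (hn.comp measurable_fst).mul (measurable_coneVol G I B L (R + 1))
    _ ≤ ∫⁻ μ in Set.Icc 0 M, ENNReal.ofReal (4 / s₀) *
          ∫⁻ a in {a | Good a I ∧ Good a B}, coneVol a B (obj a G I L μ) (R + 3)
            ∂(noise c σ) := by
        refine setLIntegral_mono' measurableSet_Icc fun μ hμ => ?_
        exact fresh_bound c G I B k₀ hf hd hσ hσ1 hRg hA hT hR hL hμ.1 hμ.2 hρ hs h1 h2 h3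
    _ = _ := by
        rw [lintegral_const_mul]
        exact (measurable_coneVol G I B L (R + 3)).lintegral_prod_left'

theorem exT2_int (c : Fin n → Fin d → ℝ) (G : Finset (Fin n)) (I : Idx n d)
    {σ A Rg ρ₁ T L R M ρ s₀ : ℝ} (hd : 2 ≤ d) (hσ : 0 < σ)
    (hσ1 : σ ≤ 1) (hRg : 0 ≤ Rg) (hA : ∀ i, n2 (c i) + Rg ≤ A) (hT : 0 < T) (hR : 0 ≤ R)
    (hL : T * (d * (R + 1) + 1) ≤ L)
    (hρ : 2 * L * G.card + (d * (R + 1) + L * G.card * A) * ρ₁ ≤ ρ) (hs : 0 < s₀)
    (h1 : 2 * s₀ * (1 + A * ρ) * (Rg + 1) ≤ σ ^ 2) (h2 : 2 * s₀ * (1 + A * ρ) * L ≤ 1)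
    (h3 : 2 * s₀ * (1 + A * ρ) * ((d * (R + 1) + L * G.card * A + M * d * A) * ρ) ≤ 1) :
    ∫⁻ a in {a | Reg c a G I Rg ρ₁ T}, exT2 a G I L M (R + 1) ∂(noise c σ) ≤
      d * (ENNReal.ofReal (4 / s₀) * (ENNReal.ofReal M * cubeVol d (R + 3) *
        noise c σ {a | Good a I})) := by
  classical
  have hmB : ∀ B : Idx n d, MeasurableSet {a : Fin n → Fin d → ℝ | Good a B} :=
    fun B => helper11.TD.measurableSet_good B
  have hn : ∀ (B : Idx n d) (k : Fin d), Measurable fun a : Fin n → Fin d → ℝ =>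
      ENNReal.ofReal (n2 (nu a B k)) := fun B k =>
    (helper11.TD.measurable_n2.comp (helper11.TD.measurable_nu B k)).ennreal_ofReal
  have hterm : ∀ (B : Idx n d) (k : Fin d), Measurable fun a : Fin n → Fin d → ℝ =>
      (if Good a B then ENNReal.ofReal (n2 (nu a B k)) *
        ∫⁻ μ in Set.Icc 0 M, coneVol a B (obj a G I L μ) (R + 1) else 0) := fun B k =>
    Measurable.ite (hmB B) ((hn B k).mul (measurable_int_coneVol G I B L M (R + 1)))
      measurable_const
  let X : Idx n d → ℝ≥0∞ := fun B => ENNReal.ofReal (4 / s₀) * ∫⁻ μ in Set.Icc 0 M,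
        ∫⁻ a in {a | Good a I ∧ Good a B}, coneVol a B (obj a G I L μ) (R + 3) ∂(noise c σ)
  have hB : ∀ B : Idx n d, ∑ k with B k ∉ Set.range I,
      ∫⁻ a in {a | Reg c a G I Rg ρ₁ T}, (if Good a B then ENNReal.ofReal (n2 (nu a B k)) *
        ∫⁻ μ in Set.Icc 0 M, coneVol a B (obj a G I L μ) (R + 1) else 0) ∂(noise c σ) ≤
      d * X B := by
    intro B
    calc ∑ k with B k ∉ Set.range I,
      ∫⁻ a in {a | Reg c a G I Rg ρ₁ T}, (if Good a B then ENNReal.ofReal (n2 (nu a B k)) *
        ∫⁻ μ in Set.Icc 0 M, coneVol a B (obj a G I L μ) (R + 1) else 0) ∂(noise c σ)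
        ≤ ∑ _k : Fin d with B _k ∉ Set.range I, X B := by
          refine Finset.sum_le_sum fun k hk => ?_
          have hk' : B k ∉ Set.range I := (Finset.mem_filter.1 hk).2
          have e1 : ∫⁻ a in {a | Reg c a G I Rg ρ₁ T},
              (if Good a B then ENNReal.ofReal (n2 (nu a B k)) *
              ∫⁻ μ in Set.Icc 0 M, coneVol a B (obj a G I L μ) (R + 1) else 0) ∂(noise c σ)
              = ∫⁻ a in {a | Reg c a G I Rg ρ₁ T ∧ Good a B}, ENNReal.ofReal (n2 (nu a B k)) *
              (∫⁻ μ in Set.Icc 0 M, coneVol a B (obj a G I L μ) (R + 1)) ∂(noise c σ) := by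
            have e2 : {a | Reg c a G I Rg ρ₁ T ∧ Good a B}
                = {a | Good a B} ∩ {a | Reg c a G I Rg ρ₁ T} := by
              ext a
              exact and_comm
            rw [e2, ← setLIntegral_indicator (hmB B)]
            rfl
          rw [e1]
          exact expect_one c G I B k hk' hd hσ hσ1 hRg hA hT hR hL hρ hs h1 h2 h3
      _ ≤ ∑ _k : Fin d, X B := Finset.sum_le_sum_of_subset (Finset.filter_subset _ _)
      _ = d * X B := by
          rw [Finset.sum_const, Finset.card_univ, Fintype.card_fin, nsmul_eq_mul]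
  have hX : ∑ B, X B ≤ ENNReal.ofReal (4 / s₀) * (ENNReal.ofReal M * cubeVol d (R + 3) *
        noise c σ {a | Good a I}) := by
    have hmX : ∀ B : Idx n d, Measurable fun μ : ℝ =>
        ∫⁻ a in {a | Good a I ∧ Good a B}, coneVol a B (obj a G I L μ) (R + 3) ∂(noise c σ) :=
      fun B => (measurable_coneVol G I B L (R + 3)).lintegral_prod_left'
    calc ∑ B, X B = ENNReal.ofReal (4 / s₀) * ∫⁻ μ in Set.Icc 0 M, ∑ B : Idx n d,
          ∫⁻ a in {a | Good a I ∧ Good a B}, coneVol a B (obj a G I L μ) (R + 3)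
            ∂(noise c σ) := by
          rw [← Finset.mul_sum, lintegral_finsetSum _ fun B _ => hmX B]
      _ ≤ ENNReal.ofReal (4 / s₀) * ∫⁻ _μ in Set.Icc 0 M,
            (cubeVol d (R + 3) * noise c σ {a | Good a I}) := by
          gcongr with μ
          calc ∑ B : Idx n d, ∫⁻ a in {a | Good a I ∧ Good a B},
                coneVol a B (obj a G I L μ) (R + 3) ∂(noise c σ)
              = ∑ B : Idx n d, ∫⁻ a in {a | Good a I},
                (if Good a B then coneVol a B (obj a G I L μ) (R + 3) else 0)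
                  ∂(noise c σ) := by
                refine Finset.sum_congr rfl fun B _ => ?_
                have e2 : {a : Fin n → Fin d → ℝ | Good a I ∧ Good a B}
                    = {a | Good a B} ∩ {a | Good a I} := by
                  ext a
                  exact and_comm
                rw [e2, ← setLIntegral_indicator (hmB B)]
                rfl
            _ = ∫⁻ a in {a | Good a I}, ∑ B : Idx n d,
                (if Good a B then coneVol a B (obj a G I L μ) (R + 3) else 0)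
                  ∂(noise c σ) := by
                rw [lintegral_finsetSum]
                exact fun B _ => Measurable.ite (hmB B) (measurable_coneVol_a G I B L (R + 3) μ)
                  measurable_const
            _ ≤ ∫⁻ _a in {a | Good a I}, cubeVol d (R + 3) ∂(noise c σ) := by
                refine lintegral_mono_ae ?_
                filter_upwards [ae_restrict_of_ae (helper11.TD.ae_simple c hσ)] with a ha
                exact sum_coneVol_le (by omega) ha _ _
            _ = cubeVol d (R + 3) * noise c σ {a | Good a I} := by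
                rw [setLIntegral_const]
      _ = _ := by
          rw [setLIntegral_const, Real.volume_Icc, sub_zero]
          ring
  calc ∫⁻ a in {a | Reg c a G I Rg ρ₁ T}, exT2 a G I L M (R + 1) ∂(noise c σ)
      = ∑ B : Idx n d, ∑ k with B k ∉ Set.range I,
      ∫⁻ a in {a | Reg c a G I Rg ρ₁ T}, (if Good a B then ENNReal.ofReal (n2 (nu a B k)) *
        ∫⁻ μ in Set.Icc 0 M, coneVol a B (obj a G I L μ) (R + 1) else 0) ∂(noise c σ) := by
        unfold exT2
        rw [lintegral_finsetSum]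
        · refine Finset.sum_congr rfl fun B _ => ?_
          rw [lintegral_finsetSum]
          exact fun k _ => hterm B k
        · exact fun B _ => Finset.measurable_sum _ fun k _ => hterm B k
    _ ≤ ∑ B : Idx n d, d * X B := Finset.sum_le_sum fun B _ => hB B
    _ = d * ∑ B : Idx n d, X B := by rw [Finset.mul_sum]
    _ ≤ _ := by gcongr

/-- (7e) The expected flux. -/
theorem lintegral_fluxSum_le (c : Fin n → Fin d → ℝ) (G : Finset (Fin n)) (I : Idx n d)
    {σ A Rg ρ₁ T L R M ρ s₀ : ℝ} (hd : 2 ≤ d) (hσ : 0 < σ)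
    (hσ1 : σ ≤ 1) (hRg : 0 ≤ Rg) (hA : ∀ i, n2 (c i) + Rg ≤ A) (hA0 : 0 < A) (hT : 0 < T)
    (hR : 0 ≤ R) (hL : T * (d * (R + 1) + 1) ≤ L) (hM : 0 ≤ M)
    (hρ : 2 * L * G.card + (d * (R + 1) + L * G.card * A) * ρ₁ ≤ ρ) (hs : 0 < s₀)
    (h1 : 2 * s₀ * (1 + A * ρ) * (Rg + 1) ≤ σ ^ 2) (h2 : 2 * s₀ * (1 + A * ρ) * L ≤ 1)
    (h3 : 2 * s₀ * (1 + A * ρ) * ((d * (R + 1) + L * G.card * A + M * d * A) * ρ) ≤ 1) :
    ∫⁻ a in {a | Reg c a G I Rg ρ₁ T}, fluxSum a G I A L M R ∂(noise c σ) ≤
      ENNReal.ofReal (M * (d * A ^ 2) * (d * T + (1 + d * A * T) * (4 * d / s₀))) *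
        cubeVol d (R + 3) * noise c σ {a | Good a I} := by
  classical
  have hm := measurableSet_reg c G I Rg ρ₁ T
  have hm1 : Measurable fun a : Fin n → Fin d → ℝ => exT1 a G I L M (R + 1) :=
    Finset.measurable_sum _ fun B _ => Measurable.ite (helper11.TD.measurableSet_good B)
      (measurable_int_coneVol G I B L M (R + 1)) measurable_const
  have hpt : ∀ a ∈ {a | Reg c a G I Rg ρ₁ T}, fluxSum a G I A L M R ≤
      ENNReal.ofReal (d * A ^ 2) * (ENNReal.ofReal (d * T) * exT1 a G I L M (R + 1) +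
        ENNReal.ofReal (1 + d * A * T) * exT2 a G I L M (R + 1)) := by
    intro a ha
    refine expect_point G ha.good.1 hA0.le hT.le ha.nu_le fun i => ?_
    calc n2 (a i) = n2 (c i + (a i - c i)) := by rw [add_sub_cancel]
      _ ≤ n2 (c i) + n2 (a i - c i) := n2_add_le _ _
      _ ≤ n2 (c i) + Rg := by linarith [ha.near i]
      _ ≤ A := hA i
  have hm2 : Measurable fun a : Fin n → Fin d → ℝ => exT2 a G I L M (R + 1) :=
    Finset.measurable_sum _ fun B _ => Finset.measurable_sum _ fun k _ =>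
      Measurable.ite (helper11.TD.measurableSet_good B)
        (((helper11.TD.measurable_n2.comp (helper11.TD.measurable_nu B k)).ennreal_ofReal).mul
          (measurable_int_coneVol G I B L M (R + 1))) measurable_const
  have hsub : noise c σ {a | Reg c a G I Rg ρ₁ T} ≤ noise c σ {a | Good a I} :=
    measure_mono fun a ha => ha.good
  calc ∫⁻ a in {a | Reg c a G I Rg ρ₁ T}, fluxSum a G I A L M R ∂(noise c σ)
      ≤ ∫⁻ a in {a | Reg c a G I Rg ρ₁ T}, ENNReal.ofReal (d * A ^ 2) *
        (ENNReal.ofReal (d * T) * exT1 a G I L M (R + 1) +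
        ENNReal.ofReal (1 + d * A * T) * exT2 a G I L M (R + 1)) ∂(noise c σ) :=
        setLIntegral_mono' hm hpt
    _ = ENNReal.ofReal (d * A ^ 2) * (ENNReal.ofReal (d * T) *
        ∫⁻ a in {a | Reg c a G I Rg ρ₁ T}, exT1 a G I L M (R + 1) ∂(noise c σ) +
        ENNReal.ofReal (1 + d * A * T) *
        ∫⁻ a in {a | Reg c a G I Rg ρ₁ T}, exT2 a G I L M (R + 1) ∂(noise c σ)) := by
        have e1 : Measurable fun a : Fin n → Fin d → ℝ =>
            ENNReal.ofReal (d * T) * exT1 a G I L M (R + 1) := hm1.const_mul _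
        have e2 : Measurable fun a : Fin n → Fin d → ℝ =>
            ENNReal.ofReal (1 + d * A * T) * exT2 a G I L M (R + 1) := hm2.const_mul _
        have e3 : Measurable fun a : Fin n → Fin d → ℝ =>
            ENNReal.ofReal (d * T) * exT1 a G I L M (R + 1) +
            ENNReal.ofReal (1 + d * A * T) * exT2 a G I L M (R + 1) := e1.add e2
        rw [lintegral_const_mul _ e3, lintegral_add_left e1, lintegral_const_mul _ hm1,
          lintegral_const_mul _ hm2]
    _ ≤ ENNReal.ofReal (d * A ^ 2) * (ENNReal.ofReal (d * T) *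
        (ENNReal.ofReal M * cubeVol d (R + 3) * noise c σ {a | Good a I}) +
        ENNReal.ofReal (1 + d * A * T) *
        (d * (ENNReal.ofReal (4 / s₀) * (ENNReal.ofReal M * cubeVol d (R + 3) *
        noise c σ {a | Good a I})))) := by
        gcongr
        · calc ∫⁻ a in {a | Reg c a G I Rg ρ₁ T}, exT1 a G I L M (R + 1) ∂(noise c σ)
              ≤ ENNReal.ofReal M * cubeVol d (R + 1) * noise c σ {a | Reg c a G I Rg ρ₁ T} :=
                exT1_int c G I (by omega) hσ L M (R + 1) _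
            _ ≤ _ := by
                gcongr
                exact cubeVol_mono (by linarith)
        · exact exT2_int c G I hd hσ hσ1 hRg hA hT hR hL hρ hs h1 h2 h3
    _ = _ := by
        have e1 : ENNReal.ofReal (M * (d * A ^ 2) * (d * T + (1 + d * A * T) * (4 * d / s₀)))
            = ENNReal.ofReal M * ENNReal.ofReal (d * A ^ 2) * (ENNReal.ofReal (d * T) +
              ENNReal.ofReal (1 + d * A * T) * (d * ENNReal.ofReal (4 / s₀))) := by
          have e2 : (4 * d / s₀ : ℝ) = d * (4 / s₀) := by ring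
          rw [e2, ENNReal.ofReal_mul (by positivity), ENNReal.ofReal_mul (by positivity),
            ENNReal.ofReal_add (by positivity) (by positivity),
            ENNReal.ofReal_mul (p := 1 + d * A * T) (by positivity),
            ENNReal.ofReal_mul (p := (d : ℝ)) (q := 4 / s₀) (by positivity),
            ENNReal.ofReal_natCast]
        rw [e1]
        ring

end Pool.Agent.H.MP_0cad2f_co.h13
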