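import Mathlib

/-! Changes of variables in one coordinate, orthogonal scaling, Gaussian density ratios. -/

set_option autoImplicit false

namespace Pool.ShadowAvg

open MeasureTheory Set Function
open scoped ENNReal RealInnerProductSpace

/-- Scaling and translation in one factor. -/
theorem lintegral_smul_add {E : Type*} [NormedAddCommGroup E] [NormedSpace ℝ E]
    [FiniteDimensional ℝ E] [MeasurableSpace E] [BorelSpace E] (μ : Measure E)
    [μ.IsAddHaarMeasure] {κ : ℝ} (hκ : κ ≠ 0) (b : E) (f : E → ℝ≥0∞) (hf : Measurable f) :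
    ∫⁻ y, f (κ • y + b) ∂μ
      = ENNReal.ofReal |(κ ^ Module.finrank ℝ E)⁻¹| * ∫⁻ y, f y ∂μ := by
  have h1 : ∫⁻ y, f (κ • y + b) ∂μ = ∫⁻ y, f (y + b) ∂(Measure.map (κ • ·) μ) :=
    (lintegral_map (f := fun y => f (y + b)) (hf.comp (measurable_id.add_const b))
      (measurable_const_smul κ)).symm
  rw [h1, Measure.map_addHaar_smul μ hκ, lintegral_smul_measure,
    lintegral_add_right_eq_self (μ := μ) f b, smul_eq_mul]

/-- ONE-COORDINATE MOVE: `x j` is replaced by `κ • x j + b x`, where `b x` does not depend on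
`x j`. -/
theorem lintegral_move {ι : Type*} [Fintype ι] [DecidableEq ι] {X : ι → Type*}
    [∀ i, NormedAddCommGroup (X i)] [∀ i, NormedSpace ℝ (X i)] [∀ i, FiniteDimensional ℝ (X i)]
    [∀ i, MeasurableSpace (X i)] [∀ i, BorelSpace (X i)]
    (μ : ∀ i, Measure (X i)) [∀ i, (μ i).IsAddHaarMeasure] [∀ i, SigmaFinite (μ i)]
    (j : ι) {κ : ℝ} (hκ : κ ≠ 0) (b : (∀ i, X i) → X j) (hb : Measurable b)
    (hb' : ∀ x y, b (update x j y) = b x) (f : (∀ i, X i) → ℝ≥0∞) (hf : Measurable f) :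
    ∫⁻ x, f (update x j (κ • x j + b x)) ∂Measure.pi μ
      = ENNReal.ofReal |(κ ^ Module.finrank ℝ (X j))⁻¹| * ∫⁻ x, f x ∂Measure.pi μ := by
  rw [← lintegral_const_mul _ hf]
  have hm : Measurable fun x : (∀ i, X i) => update x j (κ • x j + b x) := by
    exact (measurable_update' (a := j)).comp
      (measurable_id.prodMk (((measurable_pi_apply j).const_smul κ).add hb))
  refine lintegral_eq_of_lmarginal_eq {j} (hf.comp hm) (hf.const_mul _) ?_
  rw [lmarginal_singleton, lmarginal_singleton]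
  funext x
  simp only [update_idem, update_self, hb']
  have h2 : Measurable fun y : X j => f (update x j y) := hf.comp (measurable_update x)
  rw [lintegral_smul_add (μ j) hκ (b x) (fun y => f (update x j y)) h2,
    lintegral_const_mul _ h2]

/-- Determinant of the orthogonal scaling. -/
theorem det_orth_scale {E : Type*} [NormedAddCommGroup E] [InnerProductSpace ℝ E]
    [FiniteDimensional ℝ E] (K : Submodule ℝ E) (κ : ℝ) (L : E →ₗ[ℝ] E)
    (h1 : ∀ x ∈ K, L x = x) (h2 : ∀ x ∈ Kᗮ, L x = κ • x) :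
    LinearMap.det L = κ ^ Module.finrank ℝ Kᗮ := by
  have hc : IsCompl K Kᗮ := K.isCompl_orthogonal
  let e := Submodule.prodEquivOfIsCompl K Kᗮ hc
  have h3 : L = (e : (K × Kᗮ) →ₗ[ℝ] E) ∘ₗ
      (LinearMap.prodMap LinearMap.id (κ • LinearMap.id)) ∘ₗ (e.symm : E →ₗ[ℝ] (K × Kᗮ)) := by
    refine LinearMap.ext fun x => ?_
    obtain ⟨⟨u, v⟩, rfl⟩ := e.surjective x
    simp only [LinearMap.comp_apply, LinearEquiv.coe_coe, LinearEquiv.symm_apply_apply,
      LinearMap.prodMap_apply, LinearMap.id_apply, LinearMap.smul_apply]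
    simp only [e, Submodule.coe_prodEquivOfIsCompl', map_add]
    rw [h1 _ u.2, h2 _ v.2, Submodule.coe_smul]
  rw [h3, LinearMap.det_conj, LinearMap.det_prodMap, LinearMap.det_id, one_mul,
    LinearMap.det_smul, LinearMap.det_id, mul_one]

/-- ORTHOGONAL SCALING about the flat `p + K`. -/
theorem lintegral_orth_scale {E : Type*} [NormedAddCommGroup E] [InnerProductSpace ℝ E]
    [FiniteDimensional ℝ E] [MeasurableSpace E] [BorelSpace E] (μ : Measure E)
    [μ.IsAddHaarMeasure] (K : Submodule ℝ E) (p : E) {κ : ℝ} (hκ : 0 < κ) (f : E → ℝ≥0∞)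
    (hf : Measurable f) :
    ∫⁻ x, f (p + (κ • (x - p) + (1 - κ) • (K.starProjection (x - p)))) ∂μ
      = ENNReal.ofReal (κ ^ Module.finrank ℝ Kᗮ)⁻¹ * ∫⁻ x, f x ∂μ := by
  let L : E →ₗ[ℝ] E := κ • LinearMap.id + (1 - κ) • (K.starProjection : E →ₗ[ℝ] E)
  have hL : ∀ x, L x = κ • x + (1 - κ) • K.starProjection x := fun x => rfl
  have hdet : LinearMap.det L = κ ^ Module.finrank ℝ Kᗮ := by
    refine det_orth_scale K κ L (fun x hx => ?_) (fun x hx => ?_)
    · rw [hL, Submodule.starProjection_eq_self_iff.2 hx]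
      module
    · rw [hL, (Submodule.starProjection_apply_eq_zero_iff K).2 hx]
      simp
  have hne : LinearMap.det L ≠ 0 := by
    rw [hdet]; positivity
  have hLm : Measurable L := L.continuous_of_finiteDimensional.measurable
  have e1 : ∫⁻ x, f (p + L (x - p)) ∂μ = ∫⁻ x, f (p + L x) ∂μ :=
    lintegral_sub_right_eq_self (μ := μ) (fun x => f (p + L x)) p
  have e2 : ∫⁻ x, f (p + L x) ∂μ = ∫⁻ x, f (p + x) ∂(Measure.map L μ) :=
    (lintegral_map (f := fun x => f (p + x)) (hf.comp (measurable_const_add p)) hLm).symm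
  have e3 : ∫⁻ x, f (p + x) ∂μ = ∫⁻ x, f x ∂μ := lintegral_add_left_eq_self (μ := μ) f p
  calc ∫⁻ x, f (p + (κ • (x - p) + (1 - κ) • (K.starProjection (x - p)))) ∂μ
      = ∫⁻ x, f (p + L (x - p)) ∂μ := rfl
    _ = ENNReal.ofReal (κ ^ Module.finrank ℝ Kᗮ)⁻¹ * ∫⁻ x, f x ∂μ := by
      rw [e1, e2, Measure.map_linearMap_addHaar_eq_smul_addHaar μ hne, lintegral_smul_measure, e3,
        hdet, abs_of_pos (by positivity), smul_eq_mul]

/-- The (unnormalised) Gaussian density. -/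
noncomputable def gd {E : Type*} [NormedAddCommGroup E] (σ : ℝ) (c x : E) : ℝ :=
  Real.exp (-(‖x - c‖ ^ 2) / (2 * σ ^ 2))

theorem gd_ratio {E : Type*} [NormedAddCommGroup E] {σ R r : ℝ} (hσ : 0 < σ) {c x y : E}
    (hc : ‖c‖ ≤ 1) (hx : ‖x‖ ≤ R) (hy : ‖y‖ ≤ R) (hr : ‖y - x‖ ≤ r) :
    gd σ c x ≤ Real.exp (r * (R + 1) / σ ^ 2) * gd σ c y := by
  unfold gd
  rw [← Real.exp_add]
  refine Real.exp_le_exp.2 ?_
  have h1 : ‖y - c‖ ≤ ‖x - c‖ + r := by
    calc ‖y - c‖ = ‖(x - c) + (y - x)‖ := by congr 1; abel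
      _ ≤ ‖x - c‖ + ‖y - x‖ := norm_add_le _ _
      _ ≤ ‖x - c‖ + r := by linarith
  have h2 : ‖x - c‖ ≤ R + 1 := (norm_sub_le _ _).trans (by linarith)
  have h3 : ‖y - c‖ ≤ R + 1 := (norm_sub_le _ _).trans (by linarith)
  have hr0 : 0 ≤ r := (norm_nonneg _).trans hr
  have hR : 0 ≤ R + 1 := (norm_nonneg _).trans h2
  have h4 : ‖y - c‖ ^ 2 ≤ ‖x - c‖ ^ 2 + 2 * r * (R + 1) := by
    rcases le_total ‖y - c‖ ‖x - c‖ with h | h
    · have : ‖y - c‖ ^ 2 ≤ ‖x - c‖ ^ 2 := by gcongr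
      have : 0 ≤ 2 * r * (R + 1) := by positivity
      linarith
    · have h5 : (‖y - c‖ - ‖x - c‖) * (‖y - c‖ + ‖x - c‖) ≤ r * (2 * (R + 1)) := by
        apply mul_le_mul (by linarith) (by linarith) (by positivity) hr0
      nlinarith
  have hs : 0 < 2 * σ ^ 2 := by positivity
  have h6 : r * (R + 1) / σ ^ 2 = (2 * r * (R + 1)) / (2 * σ ^ 2) := by
    field_simp
  rw [h6, ← add_div]
  apply div_le_div_of_nonneg_right _ hs.le
  linarith

end Pool.ShadowAvg
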